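import Pool.Agent.Lib.MP_64d474_lc.RO.I2

/-!
# Row Z: level 0
-/

set_option autoImplicit false

namespace RO

open MvPolynomial AK LS SP

universe u

/-- Row M, the first half. -/
def StMono : Prop := ∀ (F : Type u) [Field F] (n s s' : ℕ), s ≤ s' →
  ∀ f : MvPolynomial (Fin n) F, W s f → W s' f

/-- Row E. -/
def StExpr : Prop := ∀ (F : Type u) [Field F] [Infinite F] (n s e M : ℕ) (i : Fin n)
    (BB : Finset (MvPolynomial (Fin n) F)), (∀ b ∈ BB, W s b) → ∀ b : MvPolynomial (Fin n) F,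
    Expr (Pi.single i 1) e M BB b → W (((e + 1) * (e + 1) * s + 1) ^ M) b

/-- The classes for the iteration. -/
def PZ {F : Type*} [Field F] {n : ℕ} (s e j : ℕ) (b : MvPolynomial (Fin n) F) : Prop :=
  W (SS j s e) b ∧ ∀ i, b.degreeOf i ≤ DS j e

theorem steps_PZ (hE : StExpr.{u}) {F : Type u} [Field F] [Infinite F] {n s e : ℕ} (he : 1 ≤ e) :
    Steps (F := F) (n := n) (PZ s e) := by
  intro j i BB hBB
  obtain ⟨BB', h1, h2⟩ := step_gen (one_le_DS j he) (Pi.single i (1 : F)) BB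
    (fun b hb => (hBB b hb).1)
    (fun b hb => (sh_natDegree_degreeOf i b).trans ((hBB b hb).2.2 i))
  refine ⟨BB', fun b hb => ⟨(h1 b hb).1, ?_, ?_⟩, h2⟩
  · have h3 := hE F n _ _ _ i BB (fun b hb => (hBB b hb).2.1) b (h1 b hb).2
    rw [SS_succ]
    have e1 : ((DS j e + 1) * (DS j e + 1) * SS j s e + 1) ^
        (2 * DS j e ^ 2 * (DS j e + 1)) = fs (SS j s e) (DS j e) := by
      rw [fs]
      congr 1
      ring
    rw [← e1]
    exact h3
  · intro i'
    rw [DS_succ]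
    have h3 := DH.expr_degreeOf i i' BB (fun b hb => (hBB b hb).2.2 i') b (h1 b hb).2
    have e3 : 2 * DS j e ^ 2 * (DS j e + 1) * DS j e = fd (DS j e) := by rw [fd]; ring
    rw [← e3]
    exact h3

theorem SS_le {s e : ℕ} (j : ℕ) (hs : 1 ≤ s) (he : 1 ≤ e) :
    SS j s e ≤ (9 * s) ^ (2 * DS j e) := by
  obtain ⟨-, -, h⟩ := DH.inv_SS (c := 9 * s) (by omega) j (DH.inv_base hs he)
  refine le_trans ?_ (h.trans (Nat.pow_le_pow_right (by omega) (Nat.sub_le _ _)))
  exact Nat.le_mul_of_pos_left _ (by positivity)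

/-- Row Z. -/
theorem zero69 (hM : StMono.{u}) (hE : StExpr.{u}) : StZero.{u} := by
  intro K e he
  refine ⟨K, 9 + ∑ j ∈ Finset.range (K + 1), 2 * DS j e, fun F _ _ n s S hs hS f h0 hf => ?_⟩
  obtain ⟨m, T, h1, h2, h3⟩ := hf
  obtain ⟨r', hr', I, hI, BB, hBB, hres⟩ := nonzero_gen (PZ s e) (steps_PZ hE he) T h1 h2 f h3 h0
  have hmem : r' ∈ Finset.range (K + 1) := Finset.mem_range.2 (Nat.lt_succ_of_le hr')
  have hc : 2 * DS r' e ≤ ∑ j ∈ Finset.range (K + 1), 2 * DS j e :=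
    Finset.single_le_sum (f := fun j => 2 * DS j e) (fun _ _ => Nat.zero_le _) hmem
  set C := 9 + ∑ j ∈ Finset.range (K + 1), 2 * DS j e with hC
  have h9 : 9 ≤ C := by omega
  have h10 : 2 * DS r' e ≤ C := by omega
  have hSS : SS r' s e ≤ S := by
    refine (SS_le r' hs he).trans (le_trans ?_ hS)
    calc (9 * s) ^ (2 * DS r' e) ≤ (C * s) ^ (2 * DS r' e) :=
          Nat.pow_le_pow_left (Nat.mul_le_mul_right s h9) _
      _ ≤ (C * s) ^ C := Nat.pow_le_pow_right (Nat.mul_pos (by omega) hs) h10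
  have hS1 : 1 ≤ S := le_trans (Nat.one_le_pow _ _ (Nat.mul_pos (by omega) hs)) hS
  have h4 := hit_of_res (S := S) (R := 0) (k := K) I (hI.le.trans hr') BB
    (fun b hb => aeval_rX_of_w hS1 b (hBB b hb).1 (hM F n _ _ hSS b (hBB b hb).2.1)) f hres
  rwa [zero_add] at h4

end RO
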