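import Pool.Agent.Lib.MP_64d474_lc.RO.KC2

/-!
# Seeds and grid for the map `cv + pt` (copy of DH/GridB15)
-/

set_option autoImplicit false

namespace RO

open MvPolynomial AK Pool.Agent.Lib.MP_64d474_lc.S3 SP DH

theorem eval_rX {F : Type*} [Field F] {n S R : ℕ} (x : Unit ⊕ (Fin R ⊕ Fin R) → F)
    (f : MvPolynomial (Fin n) F) :
    eval x (aeval (rX F n S R) f) =
      eval (rpt n S (x (Sum.inl ())) (fun j => x (Sum.inr (Sum.inl j)))
        (fun j => x (Sum.inr (Sum.inr j)))) f := by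
  have h1 := MvPolynomial.comp_aeval_apply (rX F n S R)
    (aeval x : MvPolynomial (Unit ⊕ (Fin R ⊕ Fin R)) F →ₐ[F] F) f
  rw [aeval_eq_eval] at h1
  rw [h1, aeval_eq_eval]
  congr 2
  funext i
  rw [rX, rpt, rpt, map_add]
  have h2 := map_cv (eval x : MvPolynomial (Unit ⊕ (Fin R ⊕ Fin R)) F →+* F) S (Nat.clog 2 n)
    (X (Sum.inl ())) (i : ℕ)
  have h3 := map_pt (m := n) (eval x : MvPolynomial (Unit ⊕ (Fin R ⊕ Fin R)) F →+* F)
    (fun j => X (Sum.inr (Sum.inl j))) (fun j => X (Sum.inr (Sum.inr j))) i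
  rw [h2, h3]
  simp only [eval_X]

/-- Vectors with at most `k` nonzero coordinates are added by `k` more pairs of seeds. -/
theorem exists_append {F : Type*} [Field F] [CharZero F] {n S R k : ℕ} (I : Finset (Fin n))
    (hI : I.card ≤ k) (t : F) (a w : Fin R → F) (v : Fin n → F) (hv : ∀ i, i ∉ I → v i = 0) :
    ∃ a' w' : Fin (R + k) → F, rpt n S t a' w' = fun i => rpt n S t a w i + v i := by
  obtain ⟨a₁, w₁, h⟩ := exists_seeds I hI v hv
  refine ⟨Fin.append a a₁, Fin.append w w₁, ?_⟩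
  funext i
  rw [rpt, rpt, pt_append, congrFun h i, add_assoc]

/-- The induction step. -/
theorem hit_of_res {F : Type*} [Field F] [CharZero F] {n S R k : ℕ} (I : Finset (Fin n))
    (hI : I.card ≤ k) (BB : Finset (MvPolynomial (Fin n) F))
    (hBB : ∀ b ∈ BB, aeval (rX F n S R) b ≠ 0) (h : MvPolynomial (Fin n) F)
    (ho : ∀ o : Fin n → F, (∀ b ∈ BB, eval o b ≠ 0) → AK.res I o h ≠ 0) :
    aeval (rX F n S (R + k)) h ≠ 0 := by
  have hprod : (∏ b ∈ BB, aeval (rX F n S R) b) ≠ 0 := by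
    rw [Finset.prod_ne_zero_iff]
    exact hBB
  obtain ⟨x, hx⟩ := exists_eval_ne hprod
  rw [map_prod, Finset.prod_ne_zero_iff] at hx
  have h1 := ho (rpt n S (x (Sum.inl ())) (fun j => x (Sum.inr (Sum.inl j)))
    (fun j => x (Sum.inr (Sum.inr j)))) (fun b hb => by
      rw [← eval_rX]
      exact hx b hb)
  obtain ⟨w, hw⟩ := exists_eval_ne h1
  rw [eval_res] at hw
  obtain ⟨a', w', h2⟩ := exists_append (S := S) I hI (x (Sum.inl ()))
    (fun j => x (Sum.inr (Sum.inl j))) (fun j => x (Sum.inr (Sum.inr j)))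
    (fun i => if i ∈ I then w i else 0) (fun i hi => if_neg hi)
  intro h0
  apply hw
  rw [← h2]
  have h3 := eval_rX (Sum.elim (fun _ : Unit => x (Sum.inl ())) (Sum.elim a' w')) h (S := S)
  rw [h0, map_zero] at h3
  exact h3.symm

/-- The base case. -/
theorem aeval_rX_of_w {F : Type*} [Field F] [CharZero F] {n S : ℕ} (hS : 1 ≤ S)
    (b : MvPolynomial (Fin n) F) (h0 : b ≠ 0) (hb : W S b) : aeval (rX F n S 0) b ≠ 0 := by
  obtain ⟨t, ht'⟩ := curve_hits hS (Nat.le_pow_clog (by norm_num) n) b h0 hb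
  intro h1
  apply ht'
  have h3 := eval_rX (Sum.elim (fun _ : Unit => t) (Sum.elim (Fin.elim0 : Fin 0 → F) Fin.elim0)) b
    (S := S)
  rw [h1, map_zero] at h3
  have h4 : (fun i : Fin n => cv S (Nat.clog 2 n) t (i : ℕ)) = rpt n S t
      (fun j : Fin 0 => (Sum.elim (fun _ : Unit => t)
        (Sum.elim (Fin.elim0 : Fin 0 → F) Fin.elim0)) (Sum.inr (Sum.inl j)))
      (fun j : Fin 0 => (Sum.elim (fun _ : Unit => t)
        (Sum.elim (Fin.elim0 : Fin 0 → F) Fin.elim0)) (Sum.inr (Sum.inr j))) := by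
    funext i
    simp [rpt, pt]
  rw [h4]
  exact h3.symm

theorem degreeOf_cv {F σ : Type*} [Field F] {w : ℕ} (_hw : 1 ≤ w) (v : σ) (k : ℕ) :
    ∀ (z : MvPolynomial σ F) {D : ℕ}, z.degreeOf v ≤ D → ∀ i : ℕ,
      (cv w k z i).degreeOf v ≤ w ^ k * D := by
  classical
  induction k with
  | zero => intro z D hz i; rw [cv, pow_zero, one_mul]; exact hz
  | succ k ih =>
    intro z D hz i
    have h1 : ∀ m, m ≤ w → (z ^ m).degreeOf v ≤ w * D := fun m hm =>
      (degreeOf_pow_le _ _ _).trans (Nat.mul_le_mul hm hz)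
    have e1 : w ^ (k + 1) * D = w ^ k * (w * D) := by ring
    rw [cv, e1]
    split_ifs
    · exact ih _ (h1 w le_rfl) _
    · exact ih _ ((degreeOf_add_le _ _ _).trans (max_le (h1 w le_rfl) (h1 (w - 1) (Nat.sub_le _ _)))) _

theorem degreeOf_rX_t {F : Type*} [Field F] {n S R : ℕ} (hS : 1 ≤ S) (i : Fin n) :
    (rX F n S R i).degreeOf (Sum.inl ()) ≤ S ^ Nat.clog 2 n := by
  classical
  rw [rX, rpt]
  refine (degreeOf_add_le _ _ _).trans (max_le ?_ ?_)
  · refine (degreeOf_cv hS _ _ _ (D := 1) (by simp) _).trans ?_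
    simp
  · refine (degreeOf_pt _ _ _ 0 0 (fun j => by simp) (fun j => by simp) i).trans ?_
    simp

theorem degreeOf_rX_a {F : Type*} [Field F] {n S R : ℕ} (hS : 1 ≤ S) (i : Fin n) (j : Fin R) :
    (rX F n S R i).degreeOf (Sum.inr (Sum.inl j)) ≤ n - 1 := by
  classical
  rw [rX, rpt]
  refine (degreeOf_add_le _ _ _).trans (max_le ?_ ?_)
  · refine (degreeOf_cv hS _ _ _ (D := 0) (by rw [degreeOf_X, if_neg (by simp)]) _).trans ?_
    simp
  · refine (degreeOf_pt _ _ _ 1 0 (fun j => by split_ifs <;> simp) (fun j => by simp) i).trans ?_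
    simp

theorem degreeOf_rX_w {F : Type*} [Field F] {n S R : ℕ} (hS : 1 ≤ S) (i : Fin n) (j : Fin R) :
    (rX F n S R i).degreeOf (Sum.inr (Sum.inr j)) ≤ 1 := by
  classical
  rw [rX, rpt]
  refine (degreeOf_add_le _ _ _).trans (max_le ?_ ?_)
  · refine (degreeOf_cv hS _ _ _ (D := 0) (by rw [degreeOf_X, if_neg (by simp)]) _).trans ?_
    simp
  · refine (degreeOf_pt _ _ _ 0 1 (fun j => by simp) (fun j => by split_ifs <;> simp) i).trans ?_
    simp

/-- If `h` is nonzero on the map, it is nonzero at a point whose seeds are small natural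
numbers. -/
theorem grid {F : Type*} [Field F] [CharZero F] {n S R N : ℕ} (hS : 1 ≤ S)
    (h : MvPolynomial (Fin n) F) (hN : h.totalDegree ≤ N) (h0 : aeval (rX F n S R) h ≠ 0) :
    ∃ (t : ℕ) (a w : Fin R → ℕ), t ≤ N * S ^ Nat.clog 2 n ∧
      (∀ j, a j ≤ N * (n - 1)) ∧ (∀ j, w j ≤ N) ∧
      eval (rpt n S (t : F) (fun j => (a j : F)) (fun j => (w j : F))) h ≠ 0 := by
  classical
  by_contra hno
  push Not at hno
  apply h0
  refine eq_zero_of_eval_zero_at_prod_finset (aeval (rX F n S R) h)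
    (Sum.elim (fun _ => (Finset.range (N * S ^ Nat.clog 2 n + 1)).image (fun a : ℕ => (a : F)))
      (Sum.elim (fun _ => (Finset.range (N * (n - 1) + 1)).image (fun a : ℕ => (a : F)))
        (fun _ => (Finset.range (N + 1)).image (fun a : ℕ => (a : F))))) ?_ ?_
  · rintro (j | j | j)
    · simp only [Sum.elim_inl]
      rw [Finset.card_image_of_injective _ Nat.cast_injective, Finset.card_range]
      exact Nat.lt_succ_of_le ((degreeOf_aeval_le69 _ _ _ (fun i => degreeOf_rX_t hS i) h).trans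
        (Nat.mul_le_mul_right _ hN))
    · simp only [Sum.elim_inl, Sum.elim_inr]
      rw [Finset.card_image_of_injective _ Nat.cast_injective, Finset.card_range]
      exact Nat.lt_succ_of_le ((degreeOf_aeval_le69 _ _ _ (fun i => degreeOf_rX_a hS i j) h).trans
        (Nat.mul_le_mul_right _ hN))
    · simp only [Sum.elim_inr]
      rw [Finset.card_image_of_injective _ Nat.cast_injective, Finset.card_range]
      refine Nat.lt_succ_of_le ((degreeOf_aeval_le69 _ _ 1 (fun i => degreeOf_rX_w hS i j) h).trans ?_)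
      rw [mul_one]
      exact hN
  · intro x hx
    obtain ⟨t, ht1, ht2⟩ : ∃ a : ℕ, a ≤ N * S ^ Nat.clog 2 n ∧ (a : F) = x (Sum.inl ()) := by
      have := hx (Sum.inl ())
      simp only [Sum.elim_inl, Finset.mem_image, Finset.mem_range] at this
      obtain ⟨a, ha, ha2⟩ := this
      exact ⟨a, by omega, ha2⟩
    have ha : ∀ j : Fin R, ∃ a : ℕ, a ≤ N * (n - 1) ∧ (a : F) = x (Sum.inr (Sum.inl j)) := by
      intro j
      have := hx (Sum.inr (Sum.inl j))
      simp only [Sum.elim_inl, Sum.elim_inr, Finset.mem_image, Finset.mem_range] at this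
      obtain ⟨a, ha, ha2⟩ := this
      exact ⟨a, by omega, ha2⟩
    have hw : ∀ j : Fin R, ∃ a : ℕ, a ≤ N ∧ (a : F) = x (Sum.inr (Sum.inr j)) := by
      intro j
      have := hx (Sum.inr (Sum.inr j))
      simp only [Sum.elim_inr, Finset.mem_image, Finset.mem_range] at this
      obtain ⟨a, ha, ha2⟩ := this
      exact ⟨a, by omega, ha2⟩
    choose a ha1 ha2 using ha
    choose w hw1 hw2 using hw
    have h1 := hno t a w ht1 ha1 hw1
    rw [eval_rX, ← ht2]
    have e1 : (fun j => x (Sum.inr (Sum.inl j))) = fun j => ((a j : ℕ) : F) :=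
      funext fun j => (ha2 j).symm
    have e2 : (fun j => x (Sum.inr (Sum.inr j))) = fun j => ((w j : ℕ) : F) :=
      funext fun j => (hw2 j).symm
    rw [e1, e2]
    exact h1


end RO
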