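import Pool.Agent.Lib.MP_64d474_lc.LS.Ind15
import Pool.Agent.Lib.MP_64d474_lc.BB91.GKS

/-!
# Levels over read-once oblivious branching programs: definitions
-/

set_option autoImplicit false

namespace RO

open MvPolynomial AK LS

/-- At every cut of the variables, `f` is a sum of `s` products of a polynomial in the first
variables and a polynomial in the last variables (width `s`, Nisan). -/
def W {F : Type*} [Field F] {n : ℕ} (s : ℕ) (f : MvPolynomial (Fin n) F) : Prop :=
  ∀ c : ℕ, ∃ g h : ℕ → MvPolynomial (Fin n) F,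
    (∀ r, g r ∈ supported F {i : Fin n | (i : ℕ) < c}) ∧
    (∀ r, h r ∈ supported F {i : Fin n | c ≤ (i : ℕ)}) ∧
    f = ∑ r ∈ Finset.range s, g r * h r

/-- The levels over `W`. -/
def WLev {F : Type*} [Field F] {n : ℕ} (s k e : ℕ) : ℕ → MvPolynomial (Fin n) F → Prop
  | 0, f => W s f ∧ ∀ i, f.degreeOf i ≤ e
  | t + 1, f => LocSum k (WLev s k e t) f ∧ ∀ i, f.degreeOf i ≤ e

/-- The curve (merging of halves, Gurjar-Korwar-Saxena). -/
def cv {R : Type*} [CommRing R] (w : ℕ) : ℕ → R → ℕ → R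
  | 0, z, _ => z
  | k + 1, z, i => if i < 2 ^ k then cv w k (z ^ w) i else cv w k (z ^ w + z ^ (w - 1)) (i - 2 ^ k)

/-- The point with the seed `t` and `R` pairs of seeds `a_j`, `w_j`. -/
noncomputable def rpt {R₀ : Type*} [CommRing R₀] (n S : ℕ) {R : ℕ} (t : R₀) (a w : Fin R → R₀)
    (i : Fin n) : R₀ :=
  cv S (Nat.clog 2 n) t (i : ℕ) + Pool.Agent.Lib.MP_64d474_lc.S3.pt a w i

/-- The map as a vector of polynomials in the seeds. -/
noncomputable def rX (F : Type*) [Field F] (n S R : ℕ) (i : Fin n) :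
    MvPolynomial (Unit ⊕ (Fin R ⊕ Fin R)) F :=
  rpt n S (X (Sum.inl ())) (fun j => X (Sum.inr (Sum.inl j)))
    (fun j => X (Sum.inr (Sum.inr j))) i

end RO
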