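import Pool.Agent.Lib.MP_64d474_lc.RO.B2

/-!
# The induction on the level for any class closed under translations
-/

set_option autoImplicit false

namespace RO

open MvPolynomial AK LS LS.CL15 LS.HQ15

universe u

theorem diffP {F : Type*} [Field F] {n k : ℕ} {P : MvPolynomial (Fin n) F → Prop}
    (hP : ∀ (c : Fin n → F) f, P f → P (tc c f)) (m : ℕ) (c : Fin n → F)
    (hc : (supp c).card ≤ m) {f : MvPolynomial (Fin n) F} (hf : LocSum k P f) :
    AlgF (2 * k * (m * k)) P {tc c f - f} := by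
  classical
  obtain ⟨r, g, h1, h2, rfl⟩ := hf
  -- the moved summands
  let A : Finset (Fin r) := (supp c).biUnion fun i => Finset.univ.filter fun a =>
    (g a).degreeOf i ≠ 0
  have hA : A.card ≤ m * k :=
    (Finset.card_biUnion_le_card_mul _ _ _ fun i _ => h2 i).trans (Nat.mul_le_mul_right _ hc)
  have hfix : ∀ a, a ∉ A → tc c (g a) - g a = 0 := by
    intro a ha
    rw [tc_fix2, sub_self]
    intro i hi
    by_contra h3
    exact ha (Finset.mem_biUnion.2 ⟨i, by simpa [supp] using hi,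
      Finset.mem_filter.2 ⟨Finset.mem_univ _, h3⟩⟩)
  have hsum : tc c (∑ a, g a) - ∑ a, g a = ∑ a : A, (tc c (g a) - g a) := by
    rw [map_sum, ← Finset.sum_sub_distrib,
      ← Finset.sum_subset (Finset.subset_univ A) (fun a _ ha => hfix a ha), ← Finset.sum_coe_sort]
  have hone : ∀ x : A × Bool, AlgF k P
      {if x.2 then tc c (g x.1) else g x.1} := by
    rintro ⟨a, b⟩
    obtain ⟨l, T, h3, h4, h5⟩ := h1 a
    have h6 : AlgF k P {g a} := ⟨l, T, h3, h4, Set.singleton_subset_iff.2 h5⟩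
    cases b with
    | true =>
      have h7 := algF_map c (fun f hf => hP c f hf) h6
      rw [Set.image_singleton] at h7
      simpa using h7
    | false =>
      simpa using h6
  have hall := algF_sigma2 hone
  rw [Fintype.card_prod, Fintype.card_bool, Fintype.card_coe] at hall
  refine algF_mono2 ?_ (fun f hf => hf) subset_rfl (algF_adj2 hall (G' := {tc c (∑ a, g a) -
    ∑ a, g a}) ?_)
  · calc A.card * 2 * k ≤ m * k * 2 * k := by gcongr
      _ = 2 * k * (m * k) := by ring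
  · rw [Set.singleton_subset_iff, hsum]
    refine Subalgebra.sum_mem _ fun a _ => Subalgebra.sub_mem _ ?_ ?_
    · exact Algebra.subset_adjoin (Set.mem_iUnion.2 ⟨(a, true), by simp⟩)
    · exact Algebra.subset_adjoin (Set.mem_iUnion.2 ⟨(a, false), by simp⟩)


/-- Row CL. -/
theorem expr_qcP {F : Type*} [Field F] [Infinite F] {n q M K k E M' : ℕ}
    {P : MvPolynomial (Fin n) F → Prop} (hP : ∀ (c : Fin n → F) f, P f → P (tc c f)) (i : Fin n)
    (BB : Finset (MvPolynomial (Fin n) F))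
    (h : ∀ b ∈ BB, Qc q M K k P b ∧ ∀ j, b.degreeOf j ≤ E)
    (b : MvPolynomial (Fin n) F) (hb : Expr (Pi.single i 1) E M' BB b) :
    Qc ((E + 1) * q) (M' * M) ((E + 1) * (E + 1) * (K + q * (2 * k * k))) k P b := by
  classical
  obtain ⟨g, p, hg, hp, rfl⟩ := hb
  obtain ⟨c, lam, -, hlam⟩ := AK.DH.coeff_eq_sum_tr (F := F) (Pi.single i (1 : F)) E
  choose bb Q hbb hQM hQA hQe using fun a : Fin (E + 1) => (h _ (hg a)).1
  -- translations
  let φ : Fin (E + 1) → MvPolynomial (Fin n) F →+* MvPolynomial (Fin n) F := fun j =>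
    (tc (Pi.single i (c j)) : MvPolynomial (Fin n) F →ₐ[F] MvPolynomial (Fin n) F).toRingHom
  let v : Fin (E + 1) → Fin q → Fin ((E + 1) * q) := fun a j => finProdFinEquiv (a, j)
  have hv : ∀ a, Function.Injective (v a) := fun a j j' hj => by
    have := finProdFinEquiv.injective hj
    exact (Prod.mk.inj this).2
  let b' : Fin ((E + 1) * q) → MvPolynomial (Fin n) F := fun x =>
    bb (finProdFinEquiv.symm x).1 (finProdFinEquiv.symm x).2
  have hb' : ∀ a j, b' (v a j) = bb a j := fun a j => by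
    simp only [b', v, Equiv.symm_apply_apply]
  let G : Fin (E + 1) → Fin (E + 1) →
      MvPolynomial (Fin ((E + 1) * q)) (MvPolynomial (Fin n) F) := fun a j' =>
    eval₂ (C.comp (φ j')) (fun j => X (v a j) + C (φ j' (bb a j) - bb a j)) (Q a)
  have hG : ∀ a j', eval b' (G a j') = φ j' (g a) := fun a j' => by
    rw [hQe a]
    exact eval_shift (φ j') (v a) (bb a) b' (hb' a) (Q a)
  let H : Fin (E + 1) × Fin (E + 1) →
      MvPolynomial (Fin ((E + 1) * q)) (MvPolynomial (Fin n) F) := fun al =>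
    ∑ j', C (C (lam al.2 j')) * G al.1 j'
  have hH : ∀ al, eval b' (H al) = (sh (Pi.single i 1) (g al.1)).coeff al.2 := fun al => by
    rw [hlam (g al.1) ((sh_natDegree_degreeOf i _).trans ((h _ (hg al.1)).2 i)) al.2]
    simp only [H, map_sum, map_mul, eval_C, hG]
    refine Finset.sum_congr rfl fun j' _ => ?_
    rw [tr_single]
    rfl
  refine ⟨b', aeval H p, fun x => ?_, fun μ hμ x => ?_, ?_, ?_⟩
  · exact hbb _ _
  · refine (monomial_le_degreeOf x hμ).trans ?_
    refine (degreeOf_aeval_le15 H x M (fun al => ?_) p).trans (Nat.mul_le_mul_right _ hp)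
    refine (degreeOf_sum_le _ _ _).trans (Finset.sup_le fun j' _ => ?_)
    refine (degreeOf_mul_le _ _ _).trans ?_
    rw [degreeOf_C, zero_add]
    exact degreeOf_shift (φ j') (v al.1) (hv al.1) _ x M (Q al.1) (hQM al.1)
  · -- the algebra
    have h1 : ∀ aj : Fin (E + 1) × Fin (E + 1), AlgF (K + q * (2 * k * k)) P
        ((tc (Pi.single i (c aj.2)) '' {x | ∃ μ, x = coeff μ (Q aj.1)}) ∪
          ⋃ j : Fin q, {tc (Pi.single i (c aj.2)) (bb aj.1 j) - bb aj.1 j}) := by
      intro aj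
      refine algF_union ?_ ?_
      · exact algF_map (Pi.single i (c aj.2)) (fun f hf => hP _ f hf) (hQA aj.1)
      · have h2 : ∀ j : Fin q, AlgF (2 * k * k) P
            {tc (Pi.single i (c aj.2)) (bb aj.1 j) - bb aj.1 j} := by
          intro j
          have := diffP hP 1 (Pi.single i (c aj.2)) (supp_single_card _ _) (hbb aj.1 j)
          rwa [one_mul] at this
        have h3 := algF_iUnion h2
        rwa [Fintype.card_fin] at h3
    have h4 := algF_adjoin (algF_iUnion h1)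
    rw [Fintype.card_prod, Fintype.card_fin] at h4
    refine algF_mono le_rfl (fun f hf => hf) ?_ h4
    rintro x ⟨μ, rfl⟩
    set A : Subalgebra F (MvPolynomial (Fin n) F) := Algebra.adjoin F (⋃ aj :
      Fin (E + 1) × Fin (E + 1), ((tc (Pi.single i (c aj.2)) '' {x | ∃ μ, x = coeff μ (Q aj.1)}) ∪
          ⋃ j : Fin q, {tc (Pi.single i (c aj.2)) (bb aj.1 j) - bb aj.1 j})) with hA
    have hGA : ∀ a j', G a j' ∈ coeffsIn A (Fin ((E + 1) * q)) := by
      intro a j'
      refine eval₂_mem_coeffsIn (φ j') _ (fun j => ?_) (Q a) (fun μ => ?_)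
      · refine Subalgebra.add_mem _ (X_mem_coeffsIn _) (C_mem_coeffsIn ?_)
        refine Algebra.subset_adjoin (Set.mem_iUnion.2 ⟨(a, j'), Or.inr ?_⟩)
        exact Set.mem_iUnion.2 ⟨j, rfl⟩
      · refine Algebra.subset_adjoin (Set.mem_iUnion.2 ⟨(a, j'), Or.inl ?_⟩)
        exact ⟨_, ⟨μ, rfl⟩, rfl⟩
    have hHA : ∀ al, H al ∈ coeffsIn A (Fin ((E + 1) * q)) := by
      intro al
      refine Subalgebra.sum_mem _ fun j' _ => Subalgebra.mul_mem _ (C_mem_coeffsIn ?_) (hGA _ _)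
      exact Subalgebra.algebraMap_mem _ _
    refine coeff_mem_of ?_ μ
    have h5 : aeval H p ∈ Algebra.adjoin F (Set.range H) := by
      rw [Algebra.adjoin_range_eq_range_aeval]
      exact ⟨p, rfl⟩
    refine (Algebra.adjoin_le ?_ : _ ≤ coeffsIn A (Fin ((E + 1) * q))) h5
    rintro _ ⟨al, rfl⟩
    exact hHA al
  · -- evaluation
    have h6 : ∀ p : MvPolynomial (Fin (E + 1) × Fin (E + 1)) F, eval b' (aeval H p) =
        aeval (fun al : Fin (E + 1) × Fin (E + 1) =>
          (sh (Pi.single i 1) (g al.1)).coeff (al.2 : ℕ)) p := by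
      intro p
      have h7 : ((aeval b' : MvPolynomial (Fin ((E + 1) * q)) (MvPolynomial (Fin n) F) →ₐ[
          MvPolynomial (Fin n) F] MvPolynomial (Fin n) F).restrictScalars F).comp (aeval H) =
          aeval (fun al : Fin (E + 1) × Fin (E + 1) =>
            (sh (Pi.single i (1 : F)) (g al.1)).coeff (al.2 : ℕ)) := by
        refine MvPolynomial.algHom_ext fun al => ?_
        rw [AlgHom.comp_apply, aeval_X, aeval_X, AlgHom.restrictScalars_apply, aeval_eq_eval]
        exact hH al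
      have h8 := DFunLike.congr_fun h7 p
      rw [AlgHom.comp_apply, AlgHom.restrictScalars_apply, aeval_eq_eval] at h8
      exact h8
    exact (h6 p).symm



/-- Row HQ. -/
theorem hit_qcP {F : Type u} [Field F] [CharZero F] {n q M K k R S : ℕ}
    {P : MvPolynomial (Fin n) F → Prop} (hP : ∀ (c : Fin n → F) f, P f → P (tc c f))
    (ih : ∀ f : MvPolynomial (Fin n) F, f ≠ 0 →
      DH.Alg ((M + 1) ^ q * (K + q * (2 * k * ((M + 1) ^ q * k)))) P f → aeval (rX F n S R) f ≠ 0)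
    (f : MvPolynomial (Fin n) F) (h0 : f ≠ 0) (hf : Qc q M K k P f) :
    aeval (rX F n S (R + (M + 1) ^ q)) f ≠ 0 := by
  classical
  obtain ⟨b, Q, hb, hM, hA, rfl⟩ := hf
  obtain ⟨r, c, D, A, hr, hsupp, hD0, hDmem, hD⟩ := loc b Q hM h0
  obtain ⟨N, hN⟩ : ∃ N, N = (M + 1) ^ q := ⟨_, rfl⟩
  rw [← hN] at ih hr hsupp ⊢
  have h1 : ∀ l : Fin r, AlgF (K + q * (2 * k * (N * k))) P
      ((tc (c l) '' {x | ∃ μ, x = coeff μ Q}) ∪ ⋃ j : Fin q, {tc (c l) (b j) - b j}) := by
    intro l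
    refine algF_union (algF_map (c l) (fun f hf => hP _ f hf) hA) ?_
    have h3 := algF_iUnion fun j => diffP hP N (c l) (hsupp l) (hb j)
    rwa [Fintype.card_fin] at h3
  have h2 := algF_adjoin (algF_iUnion h1)
  rw [Fintype.card_fin] at h2
  have h3 : D ∈ (Algebra.adjoin F (⋃ l : Fin r, ((tc (c l) '' {x | ∃ μ, x = coeff μ Q}) ∪
      ⋃ j : Fin q, {tc (c l) (b j) - b j})) : Set (MvPolynomial (Fin n) F)) := by
    refine Algebra.adjoin_mono ?_ hDmem
    rintro x (⟨l, μ, rfl⟩ | ⟨l, j, rfl⟩)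
    · exact Set.mem_iUnion.2 ⟨l, Or.inl ⟨_, ⟨μ, rfl⟩, rfl⟩⟩
    · exact Set.mem_iUnion.2 ⟨l, Or.inr (Set.mem_iUnion.2 ⟨j, rfl⟩)⟩
  have h4 := DH.alg_mono (Nat.mul_le_mul_right _ hr) (fun f hf => hf) (alg_of_algF h2 h3)
  have h5 := ih D hD0 h4
  obtain ⟨x, hx⟩ := DH.exists_eval_ne h5
  rw [eval_rX, hD, map_sum] at hx
  obtain ⟨l, -, hl⟩ := Finset.exists_ne_zero_of_sum_ne_zero hx
  rw [map_mul] at hl
  have h6 := right_ne_zero_of_mul hl
  rw [eval_tc] at h6
  obtain ⟨a', w', h7⟩ := exists_append (S := S) (supp (c l)) (hsupp l) (x (Sum.inl ()))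
    (fun j => x (Sum.inr (Sum.inl j))) (fun j => x (Sum.inr (Sum.inr j))) (c l) (fun i hi => by
      by_contra h
      exact hi (by rw [supp, Finset.mem_filter]; exact ⟨Finset.mem_univ _, h⟩))
  intro h8
  apply h6
  rw [← h7]
  have h9 := eval_rX (Sum.elim (fun _ : Unit => x (Sum.inl ())) (Sum.elim a' w'))
    (eval b Q) (S := S)
  rw [h8, map_zero] at h9
  exact h9.symm


open LS.Ind15

/-- The classes for the iteration. -/
def PC {F : Type*} [Field F] {n : ℕ} (k e : ℕ) (P : MvPolynomial (Fin n) F → Prop) (j : ℕ)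
    (b : MvPolynomial (Fin n) F) : Prop :=
  Qc (par k e j).1 (par k e j).2.1 (par k e j).2.2.1 k P b ∧
    ∀ i, b.degreeOf i ≤ (par k e j).2.2.2

theorem steps_PC {F : Type u} [Field F] [Infinite F] {n k e : ℕ} (he : 1 ≤ e)
    {P : MvPolynomial (Fin n) F → Prop} (hP : ∀ (c : Fin n → F) f, P f → P (tc c f)) :
    Steps (F := F) (n := n) (PC k e P) := by
  intro j i BB hBB
  obtain ⟨BB', h1, h2⟩ := step_gen (one_le_par k he j) (Pi.single i (1 : F)) BB
    (fun b hb => (hBB b hb).1)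
    (fun b hb => (sh_natDegree_degreeOf i b).trans ((hBB b hb).2.2 i))
  refine ⟨BB', fun b hb => ⟨(h1 b hb).1, ?_, ?_⟩, h2⟩
  · exact expr_qcP hP i BB (fun b hb => (hBB b hb).2) b (h1 b hb).2
  · intro i'
    exact DH.expr_degreeOf i i' BB (fun b hb => (hBB b hb).2.2 i') b (h1 b hb).2


/-- More seeds do not hurt. -/
theorem rX_mono {F : Type*} [Field F] [CharZero F] {n S R R' : ℕ} (hR : R ≤ R')
    (f : MvPolynomial (Fin n) F) (h0 : aeval (rX F n S R) f ≠ 0) :
    aeval (rX F n S R') f ≠ 0 := by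
  obtain ⟨k, rfl⟩ := Nat.exists_eq_add_of_le hR
  refine hit_of_res ∅ (Nat.zero_le k) {f} (fun b hb => by
    rw [Finset.mem_singleton.1 hb]; exact h0) f (fun o ho h => ?_)
  have h1 := DH.eval_res ∅ o o f
  rw [h, map_zero] at h1
  apply ho f (Finset.mem_singleton_self f)
  rw [h1]
  congr 2
  funext i
  simp


/-- Translations keep the levels. -/
theorem wlev_tc {F : Type*} [Field F] {n s k e t : ℕ}
    (hW : ∀ (c : Fin n → F) (f : MvPolynomial (Fin n) F), W s f → W s (tc c f)) (c : Fin n → F)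
    (f : MvPolynomial (Fin n) F) (hf : WLev s k e t f) : WLev s k e t (tc c f) := by
  induction t generalizing f with
  | zero => exact ⟨hW c f hf.1, fun j => (tc_degreeOf c j f).trans (hf.2 j)⟩
  | succ t ih =>
    exact ⟨locSum_map c (fun f hf => ih f hf) hf.1, fun j => (tc_degreeOf c j f).trans (hf.2 j)⟩

/-- Row W of the translations. -/
def StTc : Prop := ∀ (F : Type u) [Field F] (n s : ℕ) (c : Fin n → F) (f : MvPolynomial (Fin n) F),
  W s f → W s (tc c f)

/-- Row Z. -/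
def StZero : Prop := ∀ K e : ℕ, 1 ≤ e → ∃ R c : ℕ, ∀ (F : Type u) [Field F] [CharZero F]
    (n s S : ℕ), 1 ≤ s → (c * s) ^ c ≤ S → ∀ f : MvPolynomial (Fin n) F, f ≠ 0 →
    DH.Alg K (WLev s 0 e 0) f → aeval (rX F n S R) f ≠ 0

theorem hit_indG (hW : StTc.{u}) (hZ : StZero.{u}) (t : ℕ) : ∀ k e K : ℕ, 1 ≤ e → ∃ R c : ℕ,
    ∀ (F : Type u) [Field F] [CharZero F]
    (n s S : ℕ), 1 ≤ s → (c * s) ^ c ≤ S → ∀ f : MvPolynomial (Fin n) F, f ≠ 0 →
    DH.Alg K (WLev s k e t) f → aeval (rX F n S R) f ≠ 0 := by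
  induction t with
  | zero =>
    intro k e K he
    obtain ⟨R, c, h⟩ := hZ K e he
    exact ⟨R, c, fun F _ _ n s S hs hS f h0 hf => h F n s S hs hS f h0
      (DH.alg_mono le_rfl (fun g hg => hg) hf)⟩
  | succ t ih =>
    intro k e K he
    have hj : ∀ j : ℕ, ∃ R c : ℕ, ∀ (F : Type u) [Field F] [CharZero F]
        (n s S : ℕ), 1 ≤ s → (c * s) ^ c ≤ S → ∀ f : MvPolynomial (Fin n) F, f ≠ 0 →
        DH.Alg (NN k e j * ((par k e j).2.2.1 + (par k e j).1 * (2 * k * (NN k e j * k))))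
          (WLev s k e t) f → aeval (rX F n S R) f ≠ 0 := fun j => ih k e _ he
    choose R c hRc using hj
    refine ⟨∑ j ∈ Finset.range (K + 1), (R j + NN k e j + j),
      1 + ∑ j ∈ Finset.range (K + 1), c j,
      fun F _ _ n s S hs hS f h0 hf => ?_⟩
    have hP : ∀ (c : Fin n → F) f, WLev s k e t f → WLev s k e t (tc c f) := fun c f hf =>
      wlev_tc (fun c f hf => hW F n s c f hf) c f hf
    obtain ⟨m, T, h1, h2, h3⟩ := hf
    obtain ⟨r', hr', I, hI, BB, hBB, hres⟩ := nonzero_gen (PC k e (WLev s k e t))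
      (steps_PC he hP) T
      (fun j => by
        obtain ⟨M, hM, hT⟩ := h1 j
        refine ⟨M, fun p hp => ?_, hT⟩
        have h4 := hM p hp
        exact ⟨qc_of_locSum h4.1, h4.2⟩) h2 f h3 h0
    have hmem : r' ∈ Finset.range (K + 1) := Finset.mem_range.2 (Nat.lt_succ_of_le hr')
    have hc : c r' ≤ ∑ j ∈ Finset.range (K + 1), c j :=
      Finset.single_le_sum (f := fun j => c j) (fun _ _ => Nat.zero_le _) hmem
    have hR : R r' + NN k e r' + r' ≤ ∑ j ∈ Finset.range (K + 1), (R j + NN k e j + j) :=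
      Finset.single_le_sum (f := fun j => R j + NN k e j + j) (fun _ _ => Nat.zero_le _) hmem
    have hS' : (c r' * s) ^ c r' ≤ S := by
      refine le_trans ?_ hS
      set C := 1 + ∑ j ∈ Finset.range (K + 1), c j with hC
      have h7 : c r' ≤ C := by omega
      calc (c r' * s) ^ c r' ≤ (C * s) ^ c r' :=
            Nat.pow_le_pow_left (Nat.mul_le_mul_right s h7) _
        _ ≤ (C * s) ^ C := Nat.pow_le_pow_right (Nat.mul_pos (by omega) hs) h7
    refine rX_mono hR f ?_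
    refine hit_of_res I hI.le BB (fun b hb => ?_) f hres
    exact hit_qcP hP (fun g hg0 hg => hRc r' F n s S hs hS' g hg0 hg) b (hBB b hb).1
      (hBB b hb).2.1

theorem hit_topG (hW : StTc.{u}) (hZ : StZero.{u}) (t : ℕ) : ∀ k e : ℕ, 1 ≤ e → ∃ R c : ℕ,
    ∀ (F : Type u) [Field F] [CharZero F]
    (n s S : ℕ), 1 ≤ s → (c * s) ^ c ≤ S → ∀ f : MvPolynomial (Fin n) F, f ≠ 0 →
    LocSum k (WLev s k e t) f → aeval (rX F n S R) f ≠ 0 := by
  intro k e he
  obtain ⟨R, c, h⟩ := hit_indG hW hZ t k e ((1 + 1) ^ 1 * (0 + 1 * (2 * k * ((1 + 1) ^ 1 * k)))) he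
  refine ⟨R + (1 + 1) ^ 1, c, fun F _ _ n s S hs hS f h0 hf => ?_⟩
  have hP : ∀ (c : Fin n → F) f, WLev s k e t f → WLev s k e t (tc c f) := fun c f hf =>
    wlev_tc (fun c f hf => hW F n s c f hf) c f hf
  exact hit_qcP hP (fun g hg0 hg => h F n s S hs hS g hg0 hg) f h0 (qc_of_locSum hf)


end RO
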