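import Pool.Agent.Lib.MP_64d474_lc.RO.Defs2

/-!
# Row K: one merging step, from the lemma of Gurjar, Korwar and Saxena
-/

set_option autoImplicit false

namespace RO

open Polynomial Pool.Agent.Lib.MP_64d474_lc.BB91

theorem gks_sum {F : Type*} [Field F] [CharZero F] {w : ℕ} (hw : 1 ≤ w) (G H : ℕ → Polynomial F)
    (y z : F) (h : ∑ r ∈ Finset.range w, (G r).eval y * (H r).eval z ≠ 0) :
    ∃ t : F, ∑ r ∈ Finset.range w, (G r).eval (t ^ w) * (H r).eval (t ^ w + t ^ (w - 1)) ≠ 0 := by
  classical
  set T : F[X][X] := ∑ r ∈ Finset.range w, C (G r) * (H r).map C with hT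
  have hT0 : T ≠ 0 := by
    intro h0
    apply h
    have h1 := congrArg (eval₂ (evalRingHom y) z) h0
    rw [hT, eval₂_finsetSum, eval₂_zero] at h1
    rw [← h1]
    refine Finset.sum_congr rfl fun r _ => ?_
    rw [eval₂_mul, eval₂_C, eval₂_map]
    have h2 : (evalRingHom y).comp C = RingHom.id F := by
      ext c
      simp
    rw [h2]
    rfl
  set U : Submodule F F[X] := Submodule.span F (Set.range fun r : Fin w => G r) with hU
  have hfin : FiniteDimensional F U := FiniteDimensional.span_of_finite F (Set.finite_range _)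
  have hrank : Module.finrank F U ≤ w := by
    have h1 := finrank_range_le_card (R := F) (fun r : Fin w => G r)
    rwa [Fintype.card_fin] at h1
  have hmem : ∀ j, T.coeff j ∈ U := by
    intro j
    rw [hT, finsetSum_coeff]
    refine Submodule.sum_mem _ fun r hr => ?_
    rw [coeff_C_mul, coeff_map, mul_comm, ← smul_eq_C_mul]
    exact U.smul_mem _ (Submodule.subset_span ⟨⟨r, Finset.mem_range.1 hr⟩, rfl⟩)
  have h2 := gks w hw U hrank T hmem hT0
  have h3 : subst w T = ∑ r ∈ Finset.range w, (G r).comp (X ^ w) *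
      (H r).comp (X ^ w + X ^ (w - 1)) := by
    rw [hT, map_sum]
    refine Finset.sum_congr rfl fun r _ => ?_
    rw [map_mul, subst_C, subst_map]
  rw [h3] at h2
  by_contra hcon
  push Not at hcon
  apply h2
  apply Polynomial.funext
  intro t
  rw [eval_zero, ← hcon t, eval_finsetSum]
  refine Finset.sum_congr rfl fun r _ => ?_
  rw [eval_mul, eval_comp, eval_comp, eval_add, eval_pow, eval_pow, eval_X]

end RO
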