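import Mathlib
import Pool.Agent.Lib.MP_64d474_lc.BB91.GKS

/-!
# One merging step of the curve
-/

set_option autoImplicit false

namespace RO

open Polynomial Pool.Agent.Lib.MP_64d474_lc.BB91

/-- One merging step: a sum of `w` products `G(y) * H(z)` which does not vanish at some pair does
not vanish at some point `(t ^ w, t ^ w + t ^ (w - 1))`. -/
theorem gks_sum {F : Type*} [Field F] [CharZero F] {w : ℕ} (hw : 1 ≤ w) (G H : ℕ → Polynomial F)
    (y z : F) (h : ∑ r ∈ Finset.range w, (G r).eval y * (H r).eval z ≠ 0) :
    ∃ t : F, ∑ r ∈ Finset.range w, (G r).eval (t ^ w) * (H r).eval (t ^ w + t ^ (w - 1)) ≠ 0 := by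
  classical
  set U : Submodule F F[X] := Submodule.span F (((Finset.range w).image G : Finset F[X]) : Set F[X])
    with hU
  have : FiniteDimensional F U := FiniteDimensional.span_finset F _
  have hfin : Module.finrank F U ≤ w := by
    refine (finrank_span_finset_le_card _).trans ?_
    refine Finset.card_image_le.trans ?_
    rw [Finset.card_range]
  set P : F[X][X] := ∑ r ∈ Finset.range w, C (G r) * (H r).map C with hP
  have hcoef : ∀ j, P.coeff j ∈ U := by
    intro j
    rw [hP, finsetSum_coeff]
    refine Submodule.sum_mem _ fun r hr => ?_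
    rw [coeff_C_mul, coeff_map, mul_comm, ← smul_eq_C_mul]
    refine Submodule.smul_mem _ _ (Submodule.subset_span ?_)
    exact Finset.mem_coe.mpr (Finset.mem_image_of_mem G hr)
  have hne : P ≠ 0 := by
    intro h0
    apply h
    have h1 : eval y (eval (C z) P) = ∑ r ∈ Finset.range w, (G r).eval y * (H r).eval z := by
      rw [hP, eval_finsetSum, eval_finsetSum]
      refine Finset.sum_congr rfl fun r _ => ?_
      rw [eval_mul, eval_C, eval_mul, eval_map, eval₂_at_apply, eval_C]
    rw [← h1, h0, eval_zero, eval_zero]
  have hs := gks w hw U hfin P hcoef hne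
  obtain ⟨t, ht⟩ : ∃ t : F, eval t (subst w P) ≠ 0 := by
    by_contra hcon
    push Not at hcon
    exact hs (Polynomial.funext fun t => by rw [hcon t, eval_zero])
  refine ⟨t, ?_⟩
  have h2 : eval t (subst w P) = ∑ r ∈ Finset.range w,
      (G r).eval (t ^ w) * (H r).eval (t ^ w + t ^ (w - 1)) := by
    rw [hP, map_sum, eval_finsetSum]
    refine Finset.sum_congr rfl fun r _ => ?_
    rw [map_mul, subst_C, subst_map, eval_mul, eval_comp, eval_comp]
    simp
  rw [← h2]
  exact ht

end RO
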