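import Pool.Agent.Lib.MP_64d474_lc.RO.Defs2

/-!
# The curve meets the polynomials of bounded width
-/

set_option autoImplicit false

namespace RO

open MvPolynomial AK LS

section K

/-- One merging step. -/
theorem gks_sum {F : Type*} [Field F] [CharZero F] {w : ℕ} (hw : 1 ≤ w) (G H : ℕ → Polynomial F)
    (y z : F) (h : ∑ r ∈ Finset.range w, (G r).eval y * (H r).eval z ≠ 0) :
    ∃ t : F, ∑ r ∈ Finset.range w, (G r).eval (t ^ w) * (H r).eval (t ^ w + t ^ (w - 1)) ≠ 0 := by
  classical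
  let U : Submodule F (Polynomial F) := Submodule.span F ((Finset.range w).image G)
  have hfin : FiniteDimensional F U := FiniteDimensional.span_finset F _
  have hU : Module.finrank F U ≤ w :=
    (finrank_span_finset_le_card _).trans (Finset.card_image_le.trans (by rw [Finset.card_range]))
  let Q : Polynomial (Polynomial F) := ∑ r ∈ Finset.range w, Polynomial.C (G r) * (H r).map Polynomial.C
  have hQ : ∀ j, Q.coeff j ∈ U := by
    intro j
    simp only [Q, Polynomial.finsetSum_coeff, Polynomial.coeff_C_mul, Polynomial.coeff_map]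
    refine Submodule.sum_mem _ fun r hr => ?_
    rw [mul_comm, ← Polynomial.smul_eq_C_mul]
    refine U.smul_mem _ (Submodule.subset_span ?_)
    exact Finset.mem_coe.2 (Finset.mem_image_of_mem _ hr)
  have hne : Q ≠ 0 := by
    intro hQ0
    apply h
    have h1 := congrArg (fun q : Polynomial (Polynomial F) => (q.eval (Polynomial.C z)).eval y) hQ0
    simp only [Q, Polynomial.eval_finsetSum, Polynomial.eval_mul, Polynomial.eval_C, Polynomial.eval_zero] at h1
    rw [← h1]
    refine Finset.sum_congr rfl fun r _ => ?_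
    congr 1
    rw [Polynomial.eval_map, Polynomial.eval₂_at_apply, Polynomial.eval_C]
  have h1 := Pool.Agent.Lib.MP_64d474_lc.BB91.gks w hw U hU Q hQ hne
  have h2 : Pool.Agent.Lib.MP_64d474_lc.BB91.subst w Q =
      ∑ r ∈ Finset.range w, (G r).comp (Polynomial.X ^ w) *
        (H r).comp (Polynomial.X ^ w + Polynomial.X ^ (w - 1)) := by
    simp only [Q, map_sum, map_mul, Pool.Agent.Lib.MP_64d474_lc.BB91.subst_C,
      Pool.Agent.Lib.MP_64d474_lc.BB91.subst_map]
  by_contra hno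
  push Not at hno
  apply h1
  rw [h2]
  refine Polynomial.funext fun t => ?_
  rw [Polynomial.eval_finsetSum, Polynomial.eval_zero, ← hno t]
  refine Finset.sum_congr rfl fun r _ => ?_
  simp only [Polynomial.eval_mul, Polynomial.eval_comp, Polynomial.eval_pow, Polynomial.eval_X,
    Polynomial.eval_add]

end K

section C

theorem map_cv {R R' : Type*} [CommRing R] [CommRing R'] (φ : R →+* R') (w k : ℕ) :
    ∀ (z : R) (i : ℕ), φ (cv w k z i) = cv w k (φ z) i := by
  induction k with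
  | zero => intro z i; rfl
  | succ k ih =>
    intro z i
    rw [cv, cv]
    split_ifs
    · rw [ih, map_pow]
    · rw [ih, map_add, map_pow, map_pow]

theorem eval_supported {F : Type*} [Field F] {n : ℕ} {T : Set (Fin n)} {g : MvPolynomial (Fin n) F}
    (hg : g ∈ supported F T) {x y : Fin n → F} (h : ∀ i ∈ T, x i = y i) :
    eval x g = eval y g := by
  have h1 := mem_supported.1 hg
  exact eval₂Hom_congr' rfl (fun i hi _ => h i (h1 hi)) rfl

theorem eval_aevalP {F : Type*} [Field F] {n : ℕ} (p : Fin n → Polynomial F)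
    (g : MvPolynomial (Fin n) F) (v : F) :
    (aeval p g : Polynomial F).eval v = eval (fun i => (p i).eval v) g := by
  have h1 := MvPolynomial.comp_aeval_apply p (Polynomial.aeval v : Polynomial F →ₐ[F] F) g
  rw [Polynomial.coe_aeval_eq_eval] at h1
  rw [h1, aeval_eq_eval]

theorem divmod {q m i : ℕ} (h1 : q * m ≤ i) (h2 : i < q * (m + 1)) :
    i / q = m ∧ i % q = i - q * m := by
  have hq : 0 < q := by
    rcases Nat.eq_zero_or_pos q with h | h
    · subst h; simp at h2
    · exact h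
  have h3 : i / q = m := by
    refine Nat.div_eq_of_lt_le ?_ ?_
    · rw [mul_comm]; exact h1
    · rw [mul_comm]; exact h2
  refine ⟨h3, ?_⟩
  have h4 := Nat.div_add_mod i q
  rw [h3] at h4
  omega

/-- One pair of blocks. -/
theorem merge_one {F : Type*} [Field F] [CharZero F] {n w j m : ℕ} (hw : 1 ≤ w)
    (f : MvPolynomial (Fin n) F) (hf : W w f) (P : Fin n → F) (y z : F)
    (hA : ∀ i : Fin n, 2 ^ (j + 1) * m ≤ (i : ℕ) → (i : ℕ) < 2 ^ (j + 1) * m + 2 ^ j →
      P i = cv w j y (i - 2 ^ (j + 1) * m))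
    (hB : ∀ i : Fin n, 2 ^ (j + 1) * m + 2 ^ j ≤ (i : ℕ) → (i : ℕ) < 2 ^ (j + 1) * (m + 1) →
      P i = cv w j z (i - (2 ^ (j + 1) * m + 2 ^ j)))
    (hP : eval P f ≠ 0) :
    ∃ t : F, eval (fun i : Fin n => if 2 ^ (j + 1) * m ≤ (i : ℕ) ∧ (i : ℕ) < 2 ^ (j + 1) * (m + 1)
      then cv w (j + 1) t (i - 2 ^ (j + 1) * m) else P i) f ≠ 0 := by
  classical
  obtain ⟨c, hc⟩ : ∃ c, c = 2 ^ (j + 1) * m + 2 ^ j := ⟨_, rfl⟩
  obtain ⟨a, ha⟩ : ∃ a, a = 2 ^ (j + 1) * m := ⟨_, rfl⟩
  obtain ⟨b, hb⟩ : ∃ b, b = 2 ^ (j + 1) * (m + 1) := ⟨_, rfl⟩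
  have hab : b = c + 2 ^ j := by rw [hb, hc, pow_succ]; ring
  have hac : c = a + 2 ^ j := by rw [hc, ha]
  rw [← hc, ← ha] at hA
  rw [← hc, ← hb] at hB
  rw [← ha, ← hb]
  obtain ⟨g, h, hg, hh, rfl⟩ := hf c
  let p1 : Fin n → Polynomial F := fun i =>
    if a ≤ (i : ℕ) then cv w j Polynomial.X (i - a) else Polynomial.C (P i)
  let p2 : Fin n → Polynomial F := fun i =>
    if (i : ℕ) < b then cv w j Polynomial.X (i - c) else Polynomial.C (P i)
  have hp1 : ∀ (v : F) (i : Fin n), (p1 i).eval v = if a ≤ (i : ℕ) then cv w j v (i - a)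
      else P i := by
    intro v i
    simp only [p1]
    split_ifs
    · have := map_cv (Polynomial.evalRingHom v) w j Polynomial.X ((i : ℕ) - a)
      simpa using this
    · rw [Polynomial.eval_C]
  have hp2 : ∀ (v : F) (i : Fin n), (p2 i).eval v = if (i : ℕ) < b then cv w j v (i - c)
      else P i := by
    intro v i
    simp only [p2]
    split_ifs
    · have := map_cv (Polynomial.evalRingHom v) w j Polynomial.X ((i : ℕ) - c)
      simpa using this
    · rw [Polynomial.eval_C]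
  have h1 : ∑ r ∈ Finset.range w, (aeval p1 (g r) : Polynomial F).eval y *
      (aeval p2 (h r) : Polynomial F).eval z ≠ 0 := by
    rw [map_sum] at hP
    convert hP using 1
    refine Finset.sum_congr rfl fun r _ => ?_
    rw [map_mul, eval_aevalP, eval_aevalP]
    congr 1
    · refine eval_supported (hg r) fun i hi => ?_
      change (i : ℕ) < c at hi
      rw [hp1]
      split_ifs with h3
      · exact (hA i h3 hi).symm
      · rfl
    · refine eval_supported (hh r) fun i hi => ?_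
      change c ≤ (i : ℕ) at hi
      rw [hp2]
      split_ifs with h3
      · exact (hB i hi h3).symm
      · rfl
  obtain ⟨t, ht⟩ := gks_sum hw _ _ y z h1
  refine ⟨t, ?_⟩
  rw [map_sum]
  convert ht using 1
  refine Finset.sum_congr rfl fun r _ => ?_
  rw [map_mul, eval_aevalP, eval_aevalP]
  congr 1
  · refine eval_supported (hg r) fun i hi => ?_
    change (i : ℕ) < c at hi
    rw [hp1]
    by_cases h3 : a ≤ (i : ℕ)
    · rw [if_pos h3, if_pos ⟨h3, by omega⟩, cv, if_pos (by omega)]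
    · rw [if_neg h3, if_neg (fun h => h3 h.1)]
  · refine eval_supported (hh r) fun i hi => ?_
    change c ≤ (i : ℕ) at hi
    rw [hp2]
    by_cases h3 : (i : ℕ) < b
    · rw [if_pos h3, if_pos ⟨by omega, h3⟩, cv, if_neg (by omega)]
      congr 1
      omega
    · rw [if_neg h3, if_neg (fun h => h3 h.2)]

/-- One stage. -/
theorem merge_stage {F : Type*} [Field F] [CharZero F] {n w j : ℕ} (hw : 1 ≤ w)
    (f : MvPolynomial (Fin n) F) (hf : W w f) (z : ℕ → F)
    (hz : eval (fun i : Fin n => cv w j (z (i / 2 ^ j)) (i % 2 ^ j)) f ≠ 0) (m : ℕ) :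
    ∃ z' : ℕ → F, eval (fun i : Fin n => if (i : ℕ) < 2 ^ (j + 1) * m
      then cv w (j + 1) (z' (i / 2 ^ (j + 1))) (i % 2 ^ (j + 1))
      else cv w j (z (i / 2 ^ j)) (i % 2 ^ j)) f ≠ 0 := by
  classical
  induction m with
  | zero => exact ⟨z, by simpa using hz⟩
  | succ m ih =>
    obtain ⟨z', hz'⟩ := ih
    have hpow : 2 ^ (j + 1) * m = 2 ^ j * (2 * m) := by rw [pow_succ]; ring
    have hpow' : 2 ^ (j + 1) * m + 2 ^ j = 2 ^ j * (2 * m + 1) := by rw [pow_succ]; ring
    have hpow'' : 2 ^ (j + 1) * (m + 1) = 2 ^ j * (2 * m + 1 + 1) := by rw [pow_succ]; ring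
    obtain ⟨t, ht⟩ := merge_one (j := j) (m := m) hw f hf _ (z (2 * m)) (z (2 * m + 1))
      (fun i h1 h2 => by
        rw [if_neg (not_lt.2 h1)]
        have h3 := divmod (q := 2 ^ j) (m := 2 * m) (i := i) (hpow ▸ h1) (hpow' ▸ h2)
        rw [h3.1, h3.2, hpow])
      (fun i h1 h2 => by
        rw [if_neg (not_lt.2 (le_trans (Nat.le_add_right _ _) h1))]
        have h3 := divmod (q := 2 ^ j) (m := 2 * m + 1) (i := i) (hpow' ▸ h1) (hpow'' ▸ h2)
        rw [h3.1, h3.2, hpow']) hz'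
    refine ⟨Function.update z' m t, ?_⟩
    have hpos : 0 < 2 ^ (j + 1) := by positivity
    rw [show (fun i : Fin n => if (i : ℕ) < 2 ^ (j + 1) * (m + 1)
      then cv w (j + 1) (Function.update z' m t (i / 2 ^ (j + 1))) (i % 2 ^ (j + 1))
      else cv w j (z (i / 2 ^ j)) (i % 2 ^ j)) = fun i : Fin n =>
        if 2 ^ (j + 1) * m ≤ (i : ℕ) ∧ (i : ℕ) < 2 ^ (j + 1) * (m + 1)
        then cv w (j + 1) t (i - 2 ^ (j + 1) * m) else if (i : ℕ) < 2 ^ (j + 1) * m
          then cv w (j + 1) (z' (i / 2 ^ (j + 1))) (i % 2 ^ (j + 1))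
          else cv w j (z (i / 2 ^ j)) (i % 2 ^ j) from ?_]
    · exact ht
    funext i
    have hms : 2 ^ (j + 1) * (m + 1) = 2 ^ (j + 1) * m + 2 ^ (j + 1) := by ring
    by_cases h1 : (i : ℕ) < 2 ^ (j + 1) * (m + 1)
    · rw [if_pos h1]
      by_cases h2 : 2 ^ (j + 1) * m ≤ (i : ℕ)
      · have h3 := divmod h2 h1
        rw [if_pos ⟨h2, h1⟩, h3.1, h3.2, Function.update_self]
      · rw [if_neg (fun h => h2 h.1), if_pos (by omega), Function.update_of_ne]
        have h4 : (i : ℕ) / 2 ^ (j + 1) < m := by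
          rw [Nat.div_lt_iff_lt_mul hpos, mul_comm]
          omega
        omega
    · rw [if_neg h1, if_neg (fun h => h1 h.2), if_neg (by omega)]

/-- Row C. -/
theorem curve_hits {F : Type*} [Field F] [CharZero F] {n w k : ℕ} (hw : 1 ≤ w) (hn : n ≤ 2 ^ k)
    (f : MvPolynomial (Fin n) F) (h0 : f ≠ 0) (hf : W w f) :
    ∃ z : F, eval (fun i : Fin n => cv w k z (i : ℕ)) f ≠ 0 := by
  classical
  have hst : ∀ j : ℕ, ∃ z : ℕ → F,
      eval (fun i : Fin n => cv w j (z (i / 2 ^ j)) (i % 2 ^ j)) f ≠ 0 := by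
    intro j
    induction j with
    | zero =>
      obtain ⟨x, hx⟩ := DH.exists_eval_ne h0
      refine ⟨fun i => if h : i < n then x ⟨i, h⟩ else 0, ?_⟩
      have h1 : (fun i : Fin n => cv w 0 ((fun i => if h : i < n then x ⟨i, h⟩ else 0)
          ((i : ℕ) / 2 ^ 0)) ((i : ℕ) % 2 ^ 0)) = x := by
        funext i
        rw [cv]
        simp
      rw [h1]
      exact hx
    | succ j ih =>
      obtain ⟨z, hz⟩ := ih
      obtain ⟨z', hz'⟩ := merge_stage hw f hf z hz n
      refine ⟨z', ?_⟩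
      have h1 : (fun i : Fin n => cv w (j + 1) (z' ((i : ℕ) / 2 ^ (j + 1)))
          ((i : ℕ) % 2 ^ (j + 1))) = fun i : Fin n => if (i : ℕ) < 2 ^ (j + 1) * n
          then cv w (j + 1) (z' (i / 2 ^ (j + 1))) (i % 2 ^ (j + 1))
          else cv w j (z (i / 2 ^ j)) (i % 2 ^ j) := by
        funext i
        rw [if_pos]
        exact lt_of_lt_of_le i.2 (Nat.le_mul_of_pos_left _ (by positivity))
      rw [h1]
      exact hz'
  obtain ⟨z, hz⟩ := hst k
  refine ⟨z 0, ?_⟩
  have h2 : (fun i : Fin n => cv w k (z 0) (i : ℕ)) =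
      fun i : Fin n => cv w k (z ((i : ℕ) / 2 ^ k)) ((i : ℕ) % 2 ^ k) := by
    funext i
    have h1 : (i : ℕ) < 2 ^ k := lt_of_lt_of_le i.2 hn
    rw [Nat.div_eq_of_lt h1, Nat.mod_eq_of_lt h1]
  rw [h2]
  exact hz

end C

end RO
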