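import Pool.Agent.Lib.MP_64d474_lc.RO.Defs2

/-!
# Row P: polynomial expressions of polynomials of small width
-/

set_option autoImplicit false

namespace RO

open MvPolynomial AK LS
open scoped Pointwise

theorem w_aeval {F : Type*} [Field F] {n s M : ℕ} {κ : Type} [Fintype κ]
    (f : κ → MvPolynomial (Fin n) F) (hf : ∀ a, W s (f a)) (p : MvPolynomial κ F)
    (hp : p.totalDegree ≤ M) : W ((Fintype.card κ * s + 1) ^ M) (aeval f p) := by
  classical
  intro c
  choose g h hg hh hf' using fun a => hf a c
  let G : Option (κ × Fin s) → MvPolynomial (Fin n) F := fun o => o.elim 1 fun x => g x.1 x.2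
  let H : Option (κ × Fin s) → MvPolynomial (Fin n) F := fun o => o.elim 1 fun x => h x.1 x.2
  have hG : ∀ o, G o ∈ supported F {i : Fin n | (i : ℕ) < c} := by
    rintro (_ | ⟨a, r⟩)
    · exact Subalgebra.one_mem _
    · exact hg a r
  have hH : ∀ o, H o ∈ supported F {i : Fin n | c ≤ (i : ℕ)} := by
    rintro (_ | ⟨a, r⟩)
    · exact Subalgebra.one_mem _
    · exact hh a r
  let v : Option (κ × Fin s) → MvPolynomial (Fin n) F := fun o => G o * H o
  let V : Submodule F (MvPolynomial (Fin n) F) := Submodule.span F (Set.range v)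
  have h1 : (1 : MvPolynomial (Fin n) F) ∈ V := Submodule.subset_span ⟨none, one_mul 1⟩
  have hfa : ∀ a, f a ∈ V := by
    intro a
    rw [hf' a]
    refine Submodule.sum_mem _ fun r hr => ?_
    exact Submodule.subset_span ⟨some (a, ⟨r, Finset.mem_range.1 hr⟩), rfl⟩
  have hpow : ∀ d k : ℕ, V ^ d ≤ V ^ (d + k) := by
    intro d k
    induction k with
    | zero => exact le_refl _
    | succ k ih =>
      refine ih.trans fun x hx => ?_
      rw [← add_assoc, pow_succ, ← mul_one x]
      exact Submodule.mul_mem_mul hx h1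
  have hmon : ∀ m : κ →₀ ℕ, ∀ t : Finset κ, ∏ a ∈ t, f a ^ m a ∈ V ^ ∑ a ∈ t, m a := by
    intro m t
    induction t using Finset.induction_on with
    | empty =>
      rw [Finset.prod_empty, Finset.sum_empty, pow_zero]
      exact Submodule.one_le.1 le_rfl
    | insert a t ha ih =>
      rw [Finset.prod_insert ha, Finset.sum_insert ha, pow_add]
      exact Submodule.mul_mem_mul (Submodule.pow_mem_pow V (hfa a) _) ih
  have hmem : aeval f p ∈ V ^ M := by
    rw [aeval_def, eval₂_eq']
    refine Submodule.sum_mem _ fun m hm => ?_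
    rw [← Algebra.smul_def]
    refine Submodule.smul_mem _ _ ?_
    have h2 : ∑ a, m a ≤ M := by
      have h3 := le_totalDegree hm
      rw [Finsupp.sum_fintype _ _ fun _ => rfl] at h3
      exact h3.trans hp
    obtain ⟨k, hk⟩ := Nat.exists_eq_add_of_le h2
    rw [hk]
    exact hpow _ _ (hmon m Finset.univ)
  have hset : (Set.range v) ^ M ⊆
      Set.range (fun w : Fin M → Option (κ × Fin s) => ∏ j, v (w j)) := by
    intro x hx
    rw [Set.mem_pow] at hx
    obtain ⟨y, rfl⟩ := hx
    choose w hw using fun j => (y j).2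
    refine ⟨w, ?_⟩
    rw [List.prod_ofFn]
    exact Finset.prod_congr rfl fun j _ => hw j
  have hmem2 : aeval f p ∈ Submodule.span F
      (Set.range (fun w : Fin M → Option (κ × Fin s) => ∏ j, v (w j))) := by
    refine Submodule.span_mono hset ?_
    rw [← Submodule.span_pow]
    exact hmem
  rw [Submodule.mem_span_range_iff_exists_fun] at hmem2
  obtain ⟨cc, hcc⟩ := hmem2
  have hcard : Fintype.card (Fin M → Option (κ × Fin s)) = (Fintype.card κ * s + 1) ^ M := by
    rw [Fintype.card_fun, Fintype.card_option, Fintype.card_prod, Fintype.card_fin,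
      Fintype.card_fin]
  let e := (Fintype.equivFinOfCardEq hcard).symm
  refine ⟨fun r => if hr : r < (Fintype.card κ * s + 1) ^ M then
      C (cc (e ⟨r, hr⟩)) * ∏ j, G (e ⟨r, hr⟩ j) else 0,
    fun r => if hr : r < (Fintype.card κ * s + 1) ^ M then ∏ j, H (e ⟨r, hr⟩ j) else 0,
    fun r => ?_, fun r => ?_, ?_⟩
  · dsimp only
    split_ifs with hr
    · exact Subalgebra.mul_mem _ (Subalgebra.algebraMap_mem _ _)
        (Subalgebra.prod_mem _ fun j _ => hG _)
    · exact Subalgebra.zero_mem _
  · dsimp only
    split_ifs with hr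
    · exact Subalgebra.prod_mem _ fun j _ => hH _
    · exact Subalgebra.zero_mem _
  · rw [Finset.sum_range, ← hcc, ← Equiv.sum_comp e]
    refine Finset.sum_congr rfl fun i _ => ?_
    dsimp only
    rw [dif_pos i.2, dif_pos i.2, smul_eq_C_mul, Finset.prod_mul_distrib, mul_assoc]

end RO
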