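import Pool.Agent.Lib.MP_64d474_lc.RO.MT2
import Pool.Agent.Lib.MP_64d474_lc.RO.P81
import Pool.Agent.Lib.MP_64d474_lc.RO.I2

/-!
# Level 0 and the final statement
-/

set_option autoImplicit false

namespace RO

open MvPolynomial AK LS SP DH

universe u

/-- Row E. -/
theorem expr_w {F : Type*} [Field F] [Infinite F] {n s e M : ℕ} (i : Fin n)
    (BB : Finset (MvPolynomial (Fin n) F)) (h : ∀ b ∈ BB, W s b) (b : MvPolynomial (Fin n) F)
    (hb : Expr (Pi.single i 1) e M BB b) : W (((e + 1) * (e + 1) * s + 1) ^ M) b := by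
  obtain ⟨g, p, hg, hp, rfl⟩ := hb
  have h1 := w_aeval (κ := Fin (e + 1) × Fin (e + 1))
    (fun ij => (sh (Pi.single i (1 : F)) (g ij.1)).coeff (ij.2 : ℕ))
    (fun ij => w_taylor i _ (h _ (hg _))) p hp
  rw [Fintype.card_prod, Fintype.card_fin] at h1
  exact h1

/-- The classes at level 0. -/
def WC {F : Type*} [Field F] {n : ℕ} (s e : ℕ) (b : MvPolynomial (Fin n) F) : Prop :=
  W s b ∧ ∀ i, b.degreeOf i ≤ e

theorem stepK_w {F : Type u} [Field F] [Infinite F] {n s e : ℕ} (he : 1 ≤ e) (i : Fin n) :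
    StepK (WC (F := F) s e) (WC (fs s e) (fd e)) (Pi.single i (1 : F)) := by
  intro BB hBB
  obtain ⟨BB', h1, h2⟩ := step_gen he (Pi.single i (1 : F)) BB (fun b hb => (hBB b hb).1)
    (fun b hb => (sh_natDegree_degreeOf i b).trans ((hBB b hb).2.2 i))
  refine ⟨BB', fun b hb => ⟨(h1 b hb).1, ?_, fun j => ?_⟩, ?_⟩
  · have h3 := expr_w i BB (fun b hb => (hBB b hb).2.1) b (h1 b hb).2
    have e1 : ((e + 1) * (e + 1) * s + 1) ^ (2 * e ^ 2 * (e + 1)) = fs s e := by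
      rw [fs]
      congr 1
      ring
    rw [e1] at h3
    exact h3
  · have h3 := expr_degreeOf i j BB (fun b hb => (hBB b hb).2.2 j) b (h1 b hb).2
    have e3 : 2 * e ^ 2 * (e + 1) * e = fd e := by rw [fd]; ring
    rw [e3] at h3
    exact h3
  · intro L _ _ _ Γ _ v hv hnt x x' hx hbb z hz
    refine h2 L Γ v hv ?_ x x' hx hbb z hz
    obtain ⟨a, ha, hva⟩ := hnt
    rcases lt_or_gt_of_ne hva with h | h
    · exact ⟨a, (v.ne_zero_iff).2 ha, h⟩
    · refine ⟨a⁻¹, (v.ne_zero_iff).2 (inv_ne_zero ha), ?_⟩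
      rw [map_inv₀]
      exact inv_lt_one_of_one_lt₀ h

/-- The finitely many conditions on the base point. -/
theorem res_w {F : Type u} [Field F] [Infinite F] {n s k e : ℕ} (he : 1 ≤ e)
    (f : MvPolynomial (Fin n) F) (h0 : f ≠ 0) (hf : Alg k (WC s e) f) :
    ∃ I : Finset (Fin n), I.card ≤ k ∧ ∃ BB : Finset (MvPolynomial (Fin n) F),
      (∀ b ∈ BB, b ≠ 0 ∧ WC (SS k s e) (DS k e) b) ∧
      ∀ o : Fin n → F, (∀ b ∈ BB, eval o b ≠ 0) → res I o f ≠ 0 := by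
  obtain ⟨m, T, h1, h2, h3⟩ := hf
  refine nonzeroK (fun j => WC (SS j s e) (DS j e)) (fun j i => ?_) (fun j b hb => ?_)
    (fun t ht => exists_val t ht) (fun T hT => exists_split T hT)
    (fun v hv _ t h => indep_of_val v hv t h) T h1 h2 f h3 h0
  · show StepK (WC (SS j s e) (DS j e)) (WC (SS (j + 1) s e) (DS (j + 1) e)) (Pi.single i 1)
    rw [SS_succ, DS_succ]
    exact stepK_w (one_le_DS j he) i
  · show WC (SS (j + 1) s e) (DS (j + 1) e) b
    rw [SS_succ, DS_succ]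
    exact ⟨w_mono (le_fs (one_le_DS j he)) hb.1,
      fun i => (hb.2 i).trans (le_fd (one_le_DS j he))⟩

/-- Row Z. -/
theorem hit_zero : StZero.{u} := by
  intro K e he
  refine ⟨0 + K, 9 + 2 * DH.DT 1 K e, fun F _ _ n s S hs hS f h0 hf => ?_⟩
  have hc : (9 * s) ^ (2 * DH.DT 1 K e) ≤ S := by
    refine le_trans ?_ hS
    calc (9 * s) ^ (2 * DH.DT 1 K e) ≤
        ((9 + 2 * DH.DT 1 K e) * s) ^ (2 * DH.DT 1 K e) :=
          Nat.pow_le_pow_left (Nat.mul_le_mul_right s (Nat.le_add_right _ _)) _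
      _ ≤ ((9 + 2 * DH.DT 1 K e) * s) ^ (9 + 2 * DH.DT 1 K e) :=
          Nat.pow_le_pow_right (Nat.mul_pos (by omega) hs) (by omega)
  have hS1 : 1 ≤ S := le_trans (Nat.one_le_pow _ _ (by omega)) hc
  have hST : SS K s e ≤ S := (DH.ST_le (t := 1) hs he).trans hc
  obtain ⟨I, hI, BB, hBB, hres⟩ := res_w he f h0 hf
  exact hit_of_res I hI BB (fun b hb => aeval_rX_of_w hS1 b (hBB b hb).1
    (w_mono hST (hBB b hb).2.1)) f hres

theorem hit_top (t : ℕ) : ∀ k e : ℕ, 1 ≤ e → ∃ R c : ℕ, ∀ (F : Type u) [Field F] [CharZero F]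
    (n s S : ℕ), 1 ≤ s → (c * s) ^ c ≤ S → ∀ f : MvPolynomial (Fin n) F, f ≠ 0 →
    LocSum k (WLev s k e t) f → aeval (rX F n S R) f ≠ 0 :=
  hit_topG (fun _ _ _ _ c _ hf => w_tc c hf) hit_zero t

end RO
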